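import Pool.Agent.Q89.RF.OInf

/-!
# Infinite reduced free powers of `𝒪_∞` depend on the state

Idea.  Let `ω₁` be a state on `𝒪_∞` which vanishes on the range projections `s_i s_i*` of the
generating isometries.  In the free power `D₁` of `(𝒪_∞, ω₁)` the ranges of the isometries of different
copies are orthogonal, so that `D₁` is again generated by isometries with orthogonal ranges, and it is
nuclear: on every Hilbert space the identity of `D₁` extends approximately to completely positive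
maps `B(H) → D₁`.

Let `ω₂` be a state with a projection `p` in its centralizer and `ω₂(p) = 1/2`, and `u = 2p - 1`.
In the free power `D₂` of `(𝒪_∞, ω₂)`, with state `ρ`, let `u_j` be the copies of `u`, and `Q_j` the
projection onto the vectors which start in the `j`-th copy, so that `(1 - Q_j) u_j (1 - Q_j) = 0`.
If `Θ : B(H) → D₂` is completely positive and almost the identity on the `u_j`, then
`f = ρ ∘ Θ` is almost invariant under the `u_j`, so that `f(1 - Q_j)` is at most about `1/2`,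
and three orthogonal projections `Q_j` have `f(Q_j)` at least about `1/2`: a contradiction.
So `D₁` and `D₂` are not isomorphic.
-/

set_option autoImplicit false

open scoped ComplexConjugate ComplexOrder

noncomputable section

namespace Pool.Agent.Results.MP_0b3510_an.TwoStates

/-- `s` is a sequence of isometries with mutually orthogonal ranges which generates the unital
C*-algebra `O`. -/
structure Generates {O : Type} [CStarAlgebra O] (s : ℕ → O) : Prop where
  isometry : ∀ i, star (s i) * s i = 1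
  orthogonal : ∀ i j, i ≠ j → star (s i) * s j = 0
  generating : (StarAlgebra.adjoin ℂ (Set.range s)).topologicalClosure = ⊤

/-- `O` is the Cuntz algebra `𝒪_∞`: a nonzero unital C*-algebra generated by a sequence of isometries
with mutually orthogonal ranges. -/
def IsCuntzInfinity (O : Type) [CStarAlgebra O] : Prop :=
  Nontrivial O ∧ ∃ s : ℕ → O, Generates s

/-- `φ` is a state. -/
structure IsState {A : Type} [CStarAlgebra A] (φ : A →ₗ[ℂ] ℂ) : Prop where
  one : φ 1 = 1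
  pos : ∀ x, 0 ≤ φ (star x * x)

/-- `(D, ρ)` with the embeddings `e j : C → D`, `j ∈ ℕ`, is the reduced free product (Voiculescu) of
countably infinitely many copies of `(C, σ)`: `ρ` is a state which restricts to `σ` on each copy,
the copies are free with respect to `ρ` (alternating products of centred elements have
expectation zero), they generate `D` as a C*-algebra, and the GNS representation of `ρ` is
faithful. -/
structure IsFreePower {C : Type} [CStarAlgebra C] (σ : C →ₗ[ℂ] ℂ) {D : Type} [CStarAlgebra D]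
    (ρ : D →ₗ[ℂ] ℂ) (e : ℕ → C →⋆ₐ[ℂ] D) : Prop where
  one : ρ 1 = 1
  pos : ∀ x, 0 ≤ ρ (star x * x)
  marginal : ∀ j x, ρ (e j x) = σ x
  free : ∀ w : List (ℕ × C), w ≠ [] → w.IsChain (fun a b => a.1 ≠ b.1) →
    (∀ z ∈ w, σ z.2 = 0) → ρ ((w.map fun z => e z.1 z.2).prod) = 0
  generating : (⨆ j, (e j).range).topologicalClosure = (⊤ : StarSubalgebra ℂ D)
  gns_faithful : ∀ a, (∀ x, ρ (star (a * x) * (a * x)) = 0) → a = 0

/-- `ω` vanishes on the range projections of a generating sequence of isometries. -/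
def IsVacuum {O : Type} [CStarAlgebra O] (ω : O →ₗ[ℂ] ℂ) : Prop :=
  ∃ s : ℕ → O, Generates s ∧ ∀ i, ω (s i * star (s i)) = 0

/-- There is a projection `p` in the centralizer of `ω` with `ω p = 1 / 2`. -/
def HasCentralHalf {O : Type} [CStarAlgebra O] (ω : O →ₗ[ℂ] ℂ) : Prop :=
  ∃ p : O, star p = p ∧ p * p = p ∧ ω p = 1 / 2 ∧ ∀ a, ω (p * a) = ω (a * p)

/-- `φ` is pure: every positive functional dominated by `φ` is a multiple of `φ`. -/
def IsPure {A : Type} [CStarAlgebra A] (φ : A →ₗ[ℂ] ℂ) : Prop :=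
  ∀ ψ : A →ₗ[ℂ] ℂ, (∀ x, 0 ≤ ψ (star x * x)) → (∀ x, ψ (star x * x) ≤ φ (star x * x)) →
    ∃ c : ℂ, ∀ x, ψ x = c * φ x

open Pool.Agent.H923R2 Q89.RF

theorem toCI {O : Type} [CStarAlgebra O] {s : ℕ → O} (h : Generates s) : CuntzInf s :=
  ⟨h.isometry, h.orthogonal, h.generating⟩

theorem ofCI {O : Type} [CStarAlgebra O] {s : ℕ → O} (h : CuntzInf s) : Generates s :=
  ⟨h.iso, h.orth, h.gen⟩

theorem gen_eq {J : Type} {D : J → Type} [∀ j, CStarAlgebra (D j)] {A : Type} [CStarAlgebra A]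
    (e : ∀ j, D j →⋆ₐ[ℂ] A) :
    (⨆ j, (e j).range) = StarAlgebra.adjoin ℂ (⋃ j, Set.range (e j)) := by
  apply le_antisymm
  · refine iSup_le fun j => ?_
    rintro x ⟨y, rfl⟩
    exact StarAlgebra.subset_adjoin ℂ _ (Set.mem_iUnion.2 ⟨j, y, rfl⟩)
  · refine StarAlgebra.adjoin_le ?_
    refine Set.iUnion_subset fun j => ?_
    rintro x ⟨y, rfl⟩
    exact (le_iSup (fun j => (e j).range) j) ⟨y, rfl⟩

theorem toRFP {C : Type} [CStarAlgebra C] {σ : C →ₗ[ℂ] ℂ} {D : Type} [CStarAlgebra D]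
    {ρ : D →ₗ[ℂ] ℂ} {e : ℕ → C →⋆ₐ[ℂ] D} (h : IsFreePower σ ρ e) :
    FZ.IsRFP (fun _ : ℕ => C) (fun _ => (σ : C → ℂ)) ρ e where
  one := h.one
  nonneg := h.pos
  tr := h.marginal
  free := by
    intro w hw hc hz
    have := h.free (w.map fun z => (z.1, z.2)) (by simpa using hw)
      (by
        rw [List.isChain_map]
        exact hc)
      (by
        intro z hz'
        obtain ⟨y, hy, rfl⟩ := List.mem_map.1 hz'
        exact hz y hy)
    rw [List.map_map] at this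
    exact this
  gen := by rw [← gen_eq]; exact h.generating
  gns := h.gns_faithful

theorem ofRFP {C : Type} [CStarAlgebra C] {σ : C →ₗ[ℂ] ℂ} {D : Type} [CStarAlgebra D]
    {ρ : D →ₗ[ℂ] ℂ} {e : ℕ → C →⋆ₐ[ℂ] D}
    (h : FZ.IsRFP (fun _ : ℕ => C) (fun _ => (σ : C → ℂ)) ρ e) : IsFreePower σ ρ e where
  one := h.one
  pos := h.nonneg
  marginal := h.tr
  free := by
    intro w hw hc hz
    have := h.free (w.map fun z => ⟨z.1, z.2⟩) (by simpa using hw)
      (by
        rw [List.isChain_map]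
        exact hc)
      (by
        intro z hz'
        obtain ⟨y, hy, rfl⟩ := List.mem_map.1 hz'
        exact hz y hy)
    rw [List.map_map] at this
    exact this
  generating := by rw [gen_eq]; exact h.gen
  gns_faithful := h.gns

/-- free powers exist -/
theorem exists_power {C : Type} [CStarAlgebra C] {σ : C →ₗ[ℂ] ℂ} (h : IsState σ) :
    ∃ (D : Type) (_ : CStarAlgebra D) (ρ : D →ₗ[ℂ] ℂ) (e : ℕ → C →⋆ₐ[ℂ] D), IsFreePower σ ρ e := by
  obtain ⟨D, iD, ρ, e, hR⟩ := exists_rfp ℕ (fun _ => C) (fun _ => σ) (fun _ => ⟨h.one, h.pos⟩)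
  exact ⟨D, iD, ρ, e, ofRFP hR⟩

/-- the symmetry -/
theorem half_unitary {O : Type} [CStarAlgebra O] {ω : O →ₗ[ℂ] ℂ} (hω : IsState ω)
    (h : HasCentralHalf ω) :
    ∃ u : O, star u = u ∧ u * u = 1 ∧ Cen ω u ∧ ω u = 0 := by
  obtain ⟨p, h1, h2, h3, h4⟩ := h
  refine ⟨(2 : ℂ) • p - 1, ?_, ?_, ?_, ?_⟩
  · rw [star_sub, star_smul, star_one, h1]
    congr 2
    simp
  · rw [sub_mul, mul_sub, smul_mul_smul_comm, h2, mul_one, one_mul]
    module
  · intro a
    rw [sub_mul, mul_sub, smul_mul_assoc, mul_smul_comm, map_sub, map_sub, map_smul, map_smul, h4,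
      one_mul, mul_one]
  · rw [map_sub, map_smul, h3, hω.one, smul_eq_mul]
    norm_num

/-- **Infinite reduced free powers of `𝒪_∞` depend on the state.**  (1) `𝒪_∞` exists.  (2) On `𝒪_∞`
there are a pure state which vanishes on the range projections of a generating sequence of
isometries, and a state with a projection of mass `1 / 2` in its centralizer.  (3) Let `ω₁`, `ω₂` be
any states of these two kinds.  The infinite reduced free powers `(D₁, ρ₁)` of `(𝒪_∞, ω₁)` and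
`(D₂, ρ₂)` of `(𝒪_∞, ω₂)` exist, and there is no *-isomorphism of `D₁` and `D₂` at all. -/
theorem result :
    (∃ (O : Type) (_ : CStarAlgebra O), IsCuntzInfinity O) ∧
    ∀ (O : Type) [CStarAlgebra O], IsCuntzInfinity O →
      (∃ ω₁ : O →ₗ[ℂ] ℂ, IsState ω₁ ∧ IsVacuum ω₁ ∧ IsPure ω₁) ∧
      (∃ ω₂ : O →ₗ[ℂ] ℂ, IsState ω₂ ∧ HasCentralHalf ω₂) ∧
      ∀ ω₁ ω₂ : O →ₗ[ℂ] ℂ, IsState ω₁ → IsVacuum ω₁ → IsState ω₂ → HasCentralHalf ω₂ →
        (∃ (D : Type) (_ : CStarAlgebra D) (ρ : D →ₗ[ℂ] ℂ) (e : ℕ → O →⋆ₐ[ℂ] D),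
          IsFreePower ω₁ ρ e) ∧
        (∃ (D : Type) (_ : CStarAlgebra D) (ρ : D →ₗ[ℂ] ℂ) (e : ℕ → O →⋆ₐ[ℂ] D),
          IsFreePower ω₂ ρ e) ∧
        ∀ (D₁ D₂ : Type) [CStarAlgebra D₁] [CStarAlgebra D₂] (ρ₁ : D₁ →ₗ[ℂ] ℂ) (ρ₂ : D₂ →ₗ[ℂ] ℂ)
          (e₁ : ℕ → O →⋆ₐ[ℂ] D₁) (e₂ : ℕ → O →⋆ₐ[ℂ] D₂),
          IsFreePower ω₁ ρ₁ e₁ → IsFreePower ω₂ ρ₂ e₂ → IsEmpty (D₁ ≃⋆ₐ[ℂ] D₂) := by
  refine ⟨?_, ?_⟩
  · obtain ⟨O, iO, hn, s, hs⟩ := exists_oinf
    exact ⟨O, iO, hn, s, ofCI hs⟩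
  intro O _ ⟨hn, s, hs⟩
  obtain ⟨f, hf⟩ := exists_st O
  refine ⟨?_, ?_, ?_⟩
  · obtain ⟨w, hw, hw0⟩ := exists_vac hf (toCI hs)
    exact ⟨w, ⟨hw.one, hw.pos⟩, ⟨s, hs, vac_zero hw0⟩, vac_pure (toCI hs) hw hw0⟩
  · have h2 := om2_st hf (toCI hs)
    have e1 : (s 0 * star (s 0)) * (s 0 * star (s 0)) = s 0 * star (s 0) := by
      rw [mul_assoc, ← mul_assoc (star (s 0)), hs.isometry, one_mul]
    refine ⟨om2 f s, ⟨h2.one, h2.pos⟩, s 0 * star (s 0), by rw [star_mul, star_star], e1, ?_, ?_⟩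
    · have h3 := om2_uu hf (toCI hs)
      rw [uu, map_sub, map_smul, h2.one, smul_eq_mul, sub_eq_zero] at h3
      linear_combination (1 / 2 : ℂ) * h3
    · intro a
      have h3 := om2_cen f (toCI hs) a
      rw [uu, sub_mul, mul_sub, map_sub, map_sub, one_mul, mul_one, smul_mul_assoc, mul_smul_comm,
        map_smul, map_smul, smul_eq_mul, smul_eq_mul] at h3
      linear_combination (1 / 2 : ℂ) * h3
  · intro ω₁ ω₂ h1 hv h2 hh
    refine ⟨exists_power h1, exists_power h2, ?_⟩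
    intro D₁ D₂ _ _ ρ₁ ρ₂ e₁ e₂ hp1 hp2
    refine ⟨fun Φ => ?_⟩
    obtain ⟨s', hs', hv0⟩ := hv
    have hN : NucLike D₁ := nucLike_rfp (t := fun _ => ω₁) (toRFP hp1) (fun _ => s')
      (fun _ => toCI hs') (fun _ i => hv0 i)
    obtain ⟨u, hu1, hu2, hu3, hu4⟩ := half_unitary h2 hh
    refine not_nucLike (t := fun _ => ω₂) (toRFP hp2) (fun i : Fin 3 => (i : ℕ))
      (fun i j hij => Fin.ext hij) (fun _ => u) ?_ ?_ ?_ ?_ (hN.iso Φ)
    · intro _; rw [hu1, hu2]
    · intro _; rw [hu1, hu2]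
    · intro _; exact hu3
    · intro _; exact hu4

end Pool.Agent.Results.MP_0b3510_an.TwoStates
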